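import Pool.Agent.W662.CB.Stmts

/-!
# Project CB: the centralizer inequality (A4)
-/

set_option autoImplicit false

open MeasureTheory Filter Topology Complex
open scoped InnerProductSpace ENNReal

namespace Pool.Agent.W486.CB

open Pool.Agent.W662.CB

variable {H : Type} [NormedAddCommGroup H] [InnerProductSpace ℂ H] [CompleteSpace H]

lemma star_mul_self_U {M : VonNeumannAlgebra H} {ξ : H} {U : ℝ → H →L[ℂ] H}
    (hU : IsModular M ξ U) (t : ℝ) : star (U t) * U t = 1 := by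
  rw [hU.star_eq, ← hU.add, neg_add_cancel, hU.zero]

lemma self_mul_star_U {M : VonNeumannAlgebra H} {ξ : H} {U : ℝ → H →L[ℂ] H}
    (hU : IsModular M ξ U) (t : ℝ) : U t * star (U t) = 1 := by
  rw [hU.star_eq, ← hU.add, add_neg_cancel, hU.zero]

lemma commute_of_sgm {M : VonNeumannAlgebra H} {ξ : H} {U : ℝ → H →L[ℂ] H}
    (hU : IsModular M ξ U) (t : ℝ) {x : H →L[ℂ] H} (hx : sgm U t x = x) : Commute x (U t) := by
  unfold sgm at hx
  show x * U t = U t * x
  calc x * U t = (U t * x * star (U t)) * U t := by rw [hx]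
    _ = U t * x * (star (U t) * U t) := by simp only [mul_assoc]
    _ = U t * x := by rw [star_mul_self_U hU, mul_one]

lemma sgm_of_commute {M : VonNeumannAlgebra H} {ξ : H} {U : ℝ → H →L[ℂ] H}
    (hU : IsModular M ξ U) (t : ℝ) {x : H →L[ℂ] H} (hx : Commute x (U t)) : sgm U t x = x := by
  unfold sgm
  rw [← hx.eq, mul_assoc, self_mul_star_U hU, mul_one]

lemma sgm_star {M : VonNeumannAlgebra H} {ξ : H} {U : ℝ → H →L[ℂ] H}
    (_hU : IsModular M ξ U) (t : ℝ) {x : H →L[ℂ] H} (hx : sgm U t x = x) :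
    sgm U t (star x) = star x := by
  unfold sgm at *
  have h := congrArg star hx
  rw [star_mul, star_mul, star_star] at h
  rw [mul_assoc]
  exact h

lemma mem_of_commute (M : VonNeumannAlgebra H) (z : H →L[ℂ] H)
    (h : ∀ g ∈ M.commutant, Commute g z) : z ∈ M := by
  rw [← VonNeumannAlgebra.commutant_commutant M, VonNeumannAlgebra.mem_commutant_iff]
  exact h

lemma commute_of_mem (M : VonNeumannAlgebra H) {x g : H →L[ℂ] H} (hx : x ∈ M)
    (hg : g ∈ M.commutant) : Commute x g := by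
  rw [VonNeumannAlgebra.mem_commutant_iff] at hg
  exact hg x hx

theorem a4 (h3 : S_A3) : S_A4 := by
  intro H _ _ _ M ξ U hU x hxM hx c hc
  have hxs : star x ∈ M := star_mem hxM
  have hcs : star c ∈ M := star_mem hc
  have hfix : ∀ t, sgm U t (star x) = star x := fun t => sgm_star hU t (hx t)
  -- the positive element
  set y : H →L[ℂ] H := algebraMap ℝ (H →L[ℂ] H) (‖x‖ ^ 2) - x * star x with hy
  have hy0 : 0 ≤ y := sub_nonneg.2 CStarAlgebra.mul_star_le_algebraMap_norm_sq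
  set z : H →L[ℂ] H := CFC.sqrt y with hz
  have hzz : z * z = y := CFC.sqrt_mul_sqrt_self y hy0
  have hzs : star z = z := (IsSelfAdjoint.of_nonneg (CFC.sqrt_nonneg y)).star_eq
  have hcomm : ∀ g : H →L[ℂ] H, Commute x g → Commute (star x) g → Commute z g := by
    intro g h1 h2
    refine Commute.cfcₙ_nnreal ?_ _
    refine Commute.sub_left (Algebra.commutes _ _) (h1.mul_left h2)
  have hzM : z ∈ M := mem_of_commute M z fun g hg =>
    (hcomm g (commute_of_mem M hxM hg) (commute_of_mem M hxs hg)).symm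
  have hzfix : ∀ t, sgm U t z = z := fun t => sgm_of_commute hU t
    (hcomm _ (commute_of_sgm hU t (hx t)) (commute_of_sgm hU t (hfix t)))
  have k1 := h3 H M ξ U hU (star x) hxs hfix (star c * c * x) (mul_mem (mul_mem hcs hc) hxM)
  have k2 := h3 H M ξ U hU z hzM hzfix (star c * c * z) (mul_mem (mul_mem hcs hc) hzM)
  have e1 : vst ξ (star x * (star c * c * x)) = ((‖c (x ξ)‖ ^ 2 : ℝ) : ℂ) := by
    have : star x * (star c * c * x) = star (c * x) * (c * x) := by
      rw [star_mul]; simp only [mul_assoc]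
    rw [this]
    unfold vst
    rw [ContinuousLinearMap.star_eq_adjoint]
    show ⟪ξ, (ContinuousLinearMap.adjoint (c * x)) ((c * x) ξ)⟫_ℂ = _
    rw [ContinuousLinearMap.adjoint_inner_right, inner_self_eq_norm_sq_to_K]
    push_cast; rfl
  have e2 : vst ξ (z * (star c * c * z)) = ((‖c (z ξ)‖ ^ 2 : ℝ) : ℂ) := by
    have : z * (star c * c * z) = star (c * z) * (c * z) := by
      rw [star_mul, hzs]; simp only [mul_assoc]
    rw [this]
    unfold vst
    rw [ContinuousLinearMap.star_eq_adjoint]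
    show ⟪ξ, (ContinuousLinearMap.adjoint (c * z)) ((c * z) ξ)⟫_ℂ = _
    rw [ContinuousLinearMap.adjoint_inner_right, inner_self_eq_norm_sq_to_K]
    push_cast; rfl
  have e3 : vst ξ (star c * c) = ((‖c ξ‖ ^ 2 : ℝ) : ℂ) := by
    unfold vst
    rw [ContinuousLinearMap.star_eq_adjoint]
    show ⟪ξ, (ContinuousLinearMap.adjoint c) (c ξ)⟫_ℂ = _
    rw [ContinuousLinearMap.adjoint_inner_right, inner_self_eq_norm_sq_to_K]
    push_cast; rfl
  have e4 : star c * c * z * z = ((‖x‖ ^ 2 : ℝ) : ℂ) • (star c * c) - star c * c * x * star x := by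
    rw [mul_assoc (star c * c) z z, hzz, hy, mul_sub, ← mul_assoc]
    congr 1
    rw [Algebra.algebraMap_eq_smul_one, mul_smul_comm, mul_one]
    rfl
  have e5 : vst ξ (star c * c * z * z) = ((‖x‖ ^ 2 : ℝ) : ℂ) * vst ξ (star c * c) -
      vst ξ (star c * c * x * star x) := by
    rw [e4]
    unfold vst
    show ⟪ξ, ((‖x‖ ^ 2 : ℝ) : ℂ) • ((star c * c) ξ) - (star c * c * x * star x) ξ⟫_ℂ = _
    rw [inner_sub_right, inner_smul_right]
  rw [← k1, ← k2, e1, e2, e3] at e5
  have e6 : ‖c (z ξ)‖ ^ 2 = ‖x‖ ^ 2 * ‖c ξ‖ ^ 2 - ‖c (x ξ)‖ ^ 2 := by exact_mod_cast e5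
  have e7 : ‖c (x ξ)‖ ^ 2 ≤ (‖x‖ * ‖c ξ‖) ^ 2 := by
    rw [mul_pow]; nlinarith [sq_nonneg ‖c (z ξ)‖]
  exact le_of_sq_le_sq e7 (by positivity)

end Pool.Agent.W486.CB
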